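import Pool.Agent.Helper40.ZU.Stmts
import Mathlib.Probability.ConditionalProbability

/-!
Sheet ZU (MP_7a8f48_an): row MMX, countable mixtures.
-/

set_option linter.unusedSectionVars false

open MeasureTheory Filter Topology Finset ProbabilityTheory
open scoped ComplexConjugate ENNReal

namespace Pool.Agent.Helper73.ZU

open Pool.Agent.Helper98.TW (BF)
open Pool.Agent.Helper40.ZU (Sm Rn Ei Ge ST_MMX)

section

variable {X : Type} [MeasurableSpace X] {m : Measure X} [IsProbabilityMeasure m] {T : X → X}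
  {B : Set X} {f G : X → ℂ}

theorem restrict_eq (h0 : m B ≠ 0) : m.restrict B = m B • cond m B := by
  unfold ProbabilityTheory.cond
  rw [smul_smul, ENNReal.mul_inv_cancel h0 (measure_ne_top _ _), one_smul]

theorem ae_cond (hB : MeasurableSet B) (h0 : m B ≠ 0) {p : X → Prop}
    (h : ∀ᵐ z ∂(cond m B), p z) : ∀ᵐ z ∂m, z ∈ B → p z := by
  have h1 : ∀ᵐ z ∂(m.restrict B), p z := by
    rw [restrict_eq h0]
    exact Measure.ae_smul_measure h (m B)
  exact (ae_restrict_iff' hB).1 h1

theorem memLp_ind (hB : MeasurableSet B) (h0 : m B ≠ 0) (hf : MemLp f 2 (cond m B)) :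
    MemLp (B.indicator f) 2 m := by
  rw [memLp_indicator_iff_restrict hB, restrict_eq h0]
  exact hf.smul_measure (measure_ne_top _ _)

theorem memLp_cond (h0 : m B ≠ 0) (hf : MemLp f 2 m) : MemLp f 2 (cond m B) := by
  unfold ProbabilityTheory.cond
  exact (hf.restrict B).smul_measure (ENNReal.inv_ne_top.2 h0)

theorem int_ind (hB : MeasurableSet B) (h0 : m B ≠ 0) (F : X → ℝ) :
    ∫ z, B.indicator F z ∂m = (m B).toReal * ∫ z, F z ∂(cond m B) := by
  rw [integral_indicator hB, restrict_eq h0, integral_smul_measure, smul_eq_mul]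

theorem ind_le (hB : MeasurableSet B) (h0 : m B ≠ 0) {F : X → ℝ} {c : ℝ}
    (h : ∫ z, F z ∂(cond m B) ≤ c) (hF : ∀ z, 0 ≤ F z) : ∫ z, B.indicator F z ∂m ≤ c := by
  rw [int_ind hB h0]
  have h1 : 0 ≤ ∫ z, F z ∂(cond m B) := integral_nonneg hF
  have h2 : (m B).toReal ≤ 1 := by
    have h3 : m B ≤ 1 := prob_le_one
    exact ENNReal.toReal_le_of_le_ofReal zero_le_one (by simpa using h3)
  nlinarith

theorem ei_ind (hB : MeasurableSet B) (h0 : m B ≠ 0)
    (hTB : T ⁻¹' B =ᵐ[m] B) (h : Ei (cond m B) T f) : Ei m T (B.indicator f) := by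
  obtain ⟨h1, l, hl, h2⟩ := h
  refine ⟨memLp_ind hB h0 h1, l, hl, ?_⟩
  filter_upwards [ae_cond hB h0 h2, hTB] with z hz hz'
  have hz1 : (T z ∈ B) = (z ∈ B) := hz'
  by_cases hzB : z ∈ B
  · rw [Set.indicator_of_mem hzB, Set.indicator_of_mem (by rw [hz1]; exact hzB)]
    exact hz hzB
  · rw [Set.indicator_of_notMem hzB, Set.indicator_of_notMem (by rw [hz1]; exact hzB), mul_zero]

theorem iter_inv (hT : MeasurePreserving T m m) (hTB : T ⁻¹' B =ᵐ[m] B) (n : ℕ) :
    T^[n] ⁻¹' B =ᵐ[m] B := by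
  induction n with
  | zero => exact ae_eq_refl _
  | succ n ih =>
    have e : T^[n + 1] ⁻¹' B = T^[n] ⁻¹' (T ⁻¹' B) := by
      ext z
      rw [Set.mem_preimage, Function.iterate_succ_apply']
      rfl
    rw [e]
    exact ((hT.iterate n).quasiMeasurePreserving.preimage_ae_eq hTB).trans ih

theorem rn_ind (hT : MeasurePreserving T m m) (hB : MeasurableSet B) (h0 : m B ≠ 0)
    (hTB : T ⁻¹' B =ᵐ[m] B) (h : Rn (cond m B) T f) : Rn m T (B.indicator f) := by
  obtain ⟨h1, h2⟩ := h
  refine ⟨memLp_ind hB h0 h1, fun η hη => ?_⟩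
  obtain ⟨G, hG, hfG, P₀, hP⟩ := h2 η hη
  obtain ⟨hGm, b, hGb⟩ := hG
  refine ⟨B.indicator G, ⟨hGm.indicator hB, |b|, fun z => ?_⟩, ?_, P₀, ?_⟩
  · by_cases hz : z ∈ B
    · rw [Set.indicator_of_mem hz]
      exact (hGb z).trans (le_abs_self b)
    · rw [Set.indicator_of_notMem hz, norm_zero]
      exact abs_nonneg b
  · have e : ∀ z, ‖B.indicator f z - B.indicator G z‖ ^ 2 =
        B.indicator (fun z => ‖f z - G z‖ ^ 2) z := by
      intro z
      by_cases hz : z ∈ B
      · simp only [Set.indicator_of_mem hz]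
      · simp only [Set.indicator_of_notMem hz, sub_zero, norm_zero]
        norm_num
    simp only [e]
    exact ind_le hB h0 hfG fun z => by positivity
  · intro p q hp hq hpq hp0 hq0 κ hκ hκi hκ1 hκ2
    have := hκ
    have hBB : MeasurableSet (B ×ˢ B) := hB.prod hB
    have e : ∀ z : X × X, B.indicator G z.1 * conj (B.indicator G z.2) =
        (B ×ˢ B).indicator (fun z : X × X => G z.1 * conj (G z.2)) z := by
      intro z
      by_cases hz : z ∈ B ×ˢ B
      · rw [Set.indicator_of_mem hz, Set.indicator_of_mem hz.1, Set.indicator_of_mem hz.2]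
      · rw [Set.indicator_of_notMem hz]
        by_cases hz1 : z.1 ∈ B
        · have hz2 : z.2 ∉ B := fun h => hz ⟨hz1, h⟩
          rw [Set.indicator_of_notMem hz2, map_zero, mul_zero]
        · rw [Set.indicator_of_notMem hz1, zero_mul]
    simp only [e]
    rw [integral_indicator hBB]
    by_cases hk : κ (B ×ˢ B) = 0
    · rw [Measure.restrict_eq_zero.2 hk, integral_zero_measure, norm_zero]
      exact hη.le
    · have hκB : IsProbabilityMeasure (cond κ (B ×ˢ B)) := cond_isProbabilityMeasure hk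
      rw [restrict_eq hk, integral_smul_measure, norm_smul, Real.norm_eq_abs,
        abs_of_nonneg ENNReal.toReal_nonneg]
      have hle : (κ (B ×ˢ B)).toReal ≤ 1 := by
        have h3 : κ (B ×ˢ B) ≤ 1 := prob_le_one
        exact ENNReal.toReal_le_of_le_ofReal zero_le_one (by simpa using h3)
      have q1 : Measure.QuasiMeasurePreserving (Prod.fst : X × X → X) κ m :=
        ⟨measurable_fst, hκ1⟩
      have q2 : Measure.QuasiMeasurePreserving (Prod.snd : X × X → X) κ m :=
        ⟨measurable_snd, hκ2⟩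
      have hinv : Prod.map T^[p] T^[q] ⁻¹' (B ×ˢ B) =ᵐ[κ] (B ×ˢ B : Set (X × X)) := by
        filter_upwards [q1.preimage_ae_eq (iter_inv hT hTB p),
          q2.preimage_ae_eq (iter_inv hT hTB q)] with z hz1 hz2
        have hz1' : (T^[p] z.1 ∈ B) = (z.1 ∈ B) := hz1
        have hz2' : (T^[q] z.2 ∈ B) = (z.2 ∈ B) := hz2
        show (T^[p] z.1 ∈ B ∧ T^[q] z.2 ∈ B) = (z.1 ∈ B ∧ z.2 ∈ B)
        rw [hz1', hz2']
      have hmp : MeasurePreserving (Prod.map T^[p] T^[q]) (cond κ (B ×ˢ B))
          (cond κ (B ×ˢ B)) := by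
        refine ⟨hκi.measurable, ?_⟩
        unfold ProbabilityTheory.cond
        rw [Measure.map_smul]
        congr 1
        rw [← Measure.restrict_congr_set hinv, ← Measure.restrict_map hκi.measurable hBB,
          hκi.map_eq, Measure.restrict_congr_set hinv]
      have hac : ∀ (g : X × X → X), Measurable g → (∀ z ∈ B ×ˢ B, g z ∈ B) →
          κ.map g ≪ m → (cond κ (B ×ˢ B)).map g ≪ cond m B := by
        intro g hg hgB hgm
        refine Measure.AbsolutelyContinuous.mk fun s hs hs0 => ?_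
        rw [Measure.map_apply hg hs, cond_apply hBB]
        have h3 : m (B ∩ s) = 0 := by
          rw [cond_apply hB] at hs0
          rcases mul_eq_zero.1 hs0 with h4 | h4
          · exact absurd h4 (ENNReal.inv_ne_zero.2 (measure_ne_top _ _))
          · exact h4
        have h4 : κ (B ×ˢ B ∩ g ⁻¹' s) = 0 := by
          refine measure_mono_null ?_ (h := ?_) (t := g ⁻¹' (B ∩ s))
          · rintro z ⟨hz, hz'⟩
            exact ⟨hgB z hz, hz'⟩
          · rw [← Measure.map_apply hg (hB.inter hs)]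
            exact hgm h3
        rw [h4, mul_zero]
      have h5 := hP p q hp hq hpq hp0 hq0 (cond κ (B ×ˢ B)) hκB hmp
        (hac Prod.fst measurable_fst (fun z hz => hz.1) hκ1)
        (hac Prod.snd measurable_snd (fun z hz => hz.2) hκ2)
      have h6 : 0 ≤ ‖∫ z, G z.1 * conj (G z.2) ∂(cond κ (B ×ˢ B))‖ := norm_nonneg _
      have h7 : 0 ≤ (κ (B ×ˢ B)).toReal := ENNReal.toReal_nonneg
      nlinarith

end

/-- MMX: countable mixtures. -/
theorem st_MMX : ST_MMX := by
  intro X _ m _ T B hT hB hdis hTB hcov hGe F hF ε hε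
  have hFi : Integrable (fun z => ‖F z‖ ^ 2) m := by
    simpa using (memLp_two_iff_integrable_sq_norm hF.1).1 hF
  -- the tail
  obtain ⟨n, hn⟩ : ∃ n : ℕ, ∫ z, (⋃ i ∈ range n, B i)ᶜ.indicator (fun z => ‖F z‖ ^ 2) z ∂m ≤
      ε / 2 := by
    have h1 : Tendsto (fun n : ℕ => ∫ z, (⋃ i ∈ range n, B i)ᶜ.indicator
        (fun z => ‖F z‖ ^ 2) z ∂m) atTop (𝓝 (∫ _ : X, (0 : ℝ) ∂m)) := by
      refine tendsto_integral_of_dominated_convergence (fun z => ‖F z‖ ^ 2) ?_ hFi ?_ ?_
      · intro n
        exact hFi.1.indicator (Finset.measurableSet_biUnion _ fun i _ => hB i).compl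
      · intro n
        refine Eventually.of_forall fun z => ?_
        refine (norm_indicator_le_norm_self _ _).trans ?_
        rw [Real.norm_eq_abs, abs_of_nonneg (by positivity)]
      · filter_upwards [measure_eq_zero_iff_ae_notMem.1 hcov] with z hz
        rw [Set.notMem_compl_iff, Set.mem_iUnion] at hz
        obtain ⟨i, hi⟩ := hz
        refine tendsto_const_nhds.congr' ?_
        filter_upwards [eventually_gt_atTop i] with n hn
        rw [Set.indicator_of_notMem]
        rw [Set.notMem_compl_iff, Set.mem_iUnion₂]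
        exact ⟨i, mem_range.2 hn, hi⟩
    rw [integral_zero] at h1
    exact ((h1.eventually (ge_mem_nhds (by positivity : (0 : ℝ) < ε / 2))).exists)
  -- the pieces
  have hpc : ∀ i : Fin n, ∃ (k : ℕ) (f : Fin k → X → ℂ),
      (∀ j, Ei m T ((B i).indicator (f j)) ∨ Rn m T ((B i).indicator (f j))) ∧
      (∀ j, MemLp ((B i).indicator (f j)) 2 m) ∧
      ∫ z, (B i).indicator (fun z => ‖F z - ∑ j, f j z‖ ^ 2) z ∂m ≤ ε / (2 * n) := by
    intro i
    have hn0 : (0 : ℝ) < n := by exact_mod_cast i.pos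
    by_cases h0 : m (B i) = 0
    · refine ⟨0, Fin.elim0, fun j => j.elim0, fun j => j.elim0, ?_⟩
      rw [integral_indicator (hB i), Measure.restrict_eq_zero.2 h0, integral_zero_measure]
      positivity
    · obtain ⟨k, f, hf, hle⟩ := hGe i h0 F (memLp_cond h0 hF) (ε / (2 * n)) (by positivity)
      refine ⟨k, f, fun j => ?_, fun j => ?_, ind_le (hB i) h0 hle fun z => by positivity⟩
      · rcases hf j with h1 | h1
        · exact Or.inl (ei_ind (hB i) h0 (hTB i) h1)
        · exact Or.inr (rn_ind hT (hB i) h0 (hTB i) h1)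
      · rcases hf j with h1 | h1
        · exact memLp_ind (hB i) h0 h1.1
        · exact memLp_ind (hB i) h0 h1.1
  choose k f hf hfm hle using hpc
  have hcard : Fintype.card ((i : Fin n) × Fin (k i)) = Fintype.card ((i : Fin n) × Fin (k i)) :=
    rfl
  obtain ⟨e⟩ : Nonempty (Fin (Fintype.card ((i : Fin n) × Fin (k i))) ≃
    ((i : Fin n) × Fin (k i))) := ⟨(Fintype.equivFin _).symm⟩
  refine ⟨_, fun j => (B (e j).1).indicator (f (e j).1 (e j).2), fun j => hf (e j).1 (e j).2, ?_⟩
  have hsum : ∀ z, ∑ j, (B (e j).1).indicator (f (e j).1 (e j).2) z =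
      ∑ i : Fin n, (B i).indicator (fun z => ∑ j, f i j z) z := by
    intro z
    rw [Equiv.sum_comp e (fun s : (i : Fin n) × Fin (k i) => (B s.1).indicator (f s.1 s.2) z),
      Fintype.sum_sigma]
    refine Finset.sum_congr rfl fun i _ => ?_
    by_cases hz : z ∈ B i
    · simp only [Set.indicator_of_mem hz]
    · simp only [Set.indicator_of_notMem hz, Finset.sum_const_zero]
  have hpt : ∀ z, ‖F z - ∑ j, (B (e j).1).indicator (f (e j).1 (e j).2) z‖ ^ 2 =
      (∑ i : Fin n, (B i).indicator (fun z => ‖F z - ∑ j, f i j z‖ ^ 2) z) +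
      (⋃ i ∈ range n, B i)ᶜ.indicator (fun z => ‖F z‖ ^ 2) z := by
    intro z
    rw [hsum]
    by_cases hz : z ∈ ⋃ i ∈ range n, B i
    · rw [Set.indicator_of_notMem (Set.notMem_compl_iff.2 hz), add_zero]
      rw [Set.mem_iUnion₂] at hz
      obtain ⟨i, hi, hiz⟩ := hz
      have hother : ∀ j : Fin n, j ≠ ⟨i, mem_range.1 hi⟩ → z ∉ B j := by
        intro j hj hzj
        have hne : (j : ℕ) ≠ i := fun h => hj (Fin.ext h)
        exact Set.disjoint_left.1 (hdis hne) hzj hiz
      have hiz' : z ∈ B ((⟨i, mem_range.1 hi⟩ : Fin n) : ℕ) := hiz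
      rw [Finset.sum_eq_single (⟨i, mem_range.1 hi⟩ : Fin n)
        (fun j _ hj => Set.indicator_of_notMem (hother j hj) _)
        (fun h => absurd (Finset.mem_univ _) h),
        Finset.sum_eq_single (⟨i, mem_range.1 hi⟩ : Fin n)
        (fun j _ hj => Set.indicator_of_notMem (hother j hj) _)
        (fun h => absurd (Finset.mem_univ _) h)]
      rw [Set.indicator_of_mem hiz', Set.indicator_of_mem hiz']
    · rw [Set.indicator_of_mem hz]
      have hother : ∀ j : Fin n, z ∉ B j := by
        intro j hzj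
        apply hz
        rw [Set.mem_iUnion₂]
        exact ⟨j, mem_range.2 j.2, hzj⟩
      rw [Finset.sum_eq_zero (fun j _ => Set.indicator_of_notMem (hother j) _),
        Finset.sum_eq_zero (fun j _ => Set.indicator_of_notMem (hother j) _), sub_zero, zero_add]
  simp only [hpt]
  have hint : ∀ i : Fin n, Integrable (fun z => (B i).indicator
      (fun z => ‖F z - ∑ j, f i j z‖ ^ 2) z) m := by
    intro i
    have h1 : MemLp (fun z => (B i).indicator F z - ∑ j, (B i).indicator (f i j) z) 2 m :=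
      (hF.indicator (hB i)).sub (memLp_finsetSum _ fun j _ => hfm i j)
    have h2 := (memLp_two_iff_integrable_sq_norm h1.1).1 h1
    refine h2.congr (Eventually.of_forall fun z => ?_)
    by_cases hz : z ∈ B i
    · simp only [Set.indicator_of_mem hz]
    · simp only [Set.indicator_of_notMem hz, Finset.sum_const_zero, sub_zero, norm_zero]
      norm_num
  rw [integral_add (integrable_finsetSum _ fun i _ => hint i)
    (hFi.indicator (Finset.measurableSet_biUnion _ fun i _ => hB i).compl),
    integral_finsetSum _ fun i _ => hint i]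
  have h1 : ∑ i : Fin n, ∫ z, (B i).indicator (fun z => ‖F z - ∑ j, f i j z‖ ^ 2) z ∂m ≤
      ∑ _i : Fin n, ε / (2 * n) := Finset.sum_le_sum fun i _ => hle i
  rw [Finset.sum_const, Finset.card_univ, Fintype.card_fin, nsmul_eq_mul] at h1
  have h2 : (n : ℝ) * (ε / (2 * n)) ≤ ε / 2 := by
    rcases Nat.eq_zero_or_pos n with h3 | h3
    · rw [h3]
      simp only [Nat.cast_zero, zero_mul]
      positivity
    · have h4 : (0 : ℝ) < n := by exact_mod_cast h3
      rw [le_div_iff₀ (by norm_num : (0 : ℝ) < 2)]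
      field_simp
      exact le_refl _
  linarith

end Pool.Agent.Helper73.ZU
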