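import Pool.Agent.Helper40.ZU.Stmts

/-!
Sheet ZU (MP_7a8f48_an): row MRL, the relatively independent lift of a joining.
-/

set_option linter.unusedSectionVars false

open MeasureTheory Filter Topology ProbabilityTheory
open scoped ComplexConjugate ENNReal

namespace Pool.Agent.Helper73.ZU

open Pool.Agent.Helper98.TW (BF)
open Pool.Agent.Helper40.ZU (ST_MRL)

section

variable {X Ω : Type} [MeasurableSpace X] [StandardBorelSpace X] [MeasurableSpace Ω]
  [StandardBorelSpace Ω] [Nonempty Ω] {m : Measure X} [IsProbabilityMeasure m] {ρ : Measure Ω}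
  [IsProbabilityMeasure ρ] {T T' : X → X} {R : Ω → Ω} {θ : Ω → X}

/-- the disintegration over the factor is equivariant -/
theorem ker_eq (hT : MeasurePreserving T m m) (hT' : Measurable T')
    (hTT : ∀ᵐ z ∂m, T' (T z) = z) (hR : MeasurePreserving R ρ ρ) (hθ : Measurable θ)
    (hm : ρ.map θ = m) (he : ∀ᵐ w ∂ρ, θ (R w) = T (θ w)) :
    ∀ᵐ x ∂m, (condDistrib id θ ρ x).map R = condDistrib id θ ρ (T x) := by
  have h1 : condDistrib (R ∘ id) θ ρ =ᵐ[ρ.map θ] (condDistrib id θ ρ).map R :=
    condDistrib_comp θ aemeasurable_id hR.measurable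
  have h2 : condDistrib (R ∘ id) θ ρ =ᵐ[ρ.map θ] (condDistrib id θ ρ).comap T hT.measurable := by
    refine condDistrib_ae_eq_of_measure_eq_compProd θ hR.measurable.aemeasurable ?_
    have e1 : ρ.map (fun w => (θ w, R w)) = ρ.map (fun w => (T' (θ w), w)) := by
      have e2 : ρ.map (fun w => (θ w, R w)) =
          ρ.map ((fun w => (T' (θ w), w)) ∘ R) := by
        refine Measure.map_congr ?_
        have hTT' : ∀ᵐ w ∂ρ, T' (T (θ w)) = θ w := by
          rw [← hm] at hTT
          exact ae_of_ae_map hθ.aemeasurable hTT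
        filter_upwards [he, hTT'] with w hw hw'
        show (θ w, R w) = (T' (θ (R w)), R w)
        rw [hw, hw']
      rw [e2, ← Measure.map_map (by fun_prop) hR.measurable, hR.map_eq]
    refine e1.trans ?_
    rw [hm]
    refine Measure.ext_prod fun {s t} hs ht => ?_
    rw [Measure.compProd_apply_prod hs ht, Measure.map_apply (by fun_prop) (hs.prod ht)]
    have e3 : (fun w => (T' (θ w), w)) ⁻¹' s ×ˢ t = θ ⁻¹' (T' ⁻¹' s) ∩ id ⁻¹' t := rfl
    rw [e3, ← setLIntegral_preimage_condDistrib hθ aemeasurable_id ht (hT' hs)]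
    have e4 : ∫⁻ a in θ ⁻¹' (T' ⁻¹' s), condDistrib id θ ρ (θ a) t ∂ρ =
        ∫⁻ x in T' ⁻¹' s, condDistrib id θ ρ x t ∂m := by
      rw [← hm, Measure.restrict_map hθ (hT' hs), lintegral_map (Kernel.measurable_coe _ ht) hθ]
    rw [e4]
    have e5 : ∫⁻ x in T' ⁻¹' s, condDistrib id θ ρ x t ∂m =
        ∫⁻ x in T ⁻¹' (T' ⁻¹' s), condDistrib id θ ρ (T x) t ∂m :=
      (hT.setLIntegral_comp_preimage (hT' hs) (Kernel.measurable_coe _ ht)).symm
    rw [e5]
    have e6 : T ⁻¹' (T' ⁻¹' s) =ᵐ[m] s := by
      filter_upwards [hTT] with x hx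
      show (T' (T x) ∈ s) = (x ∈ s)
      rw [hx]
    rw [Measure.restrict_congr_set e6]
    rfl
  rw [hm] at h1 h2
  filter_upwards [h1, h2] with x hx1 hx2
  rw [hx2, Kernel.comap_apply, Kernel.map_apply _ hR.measurable] at hx1
  exact hx1.symm

end

/-- MRL: the relatively independent lift of a joining. -/
theorem st_MRL : ST_MRL := by
  intro X Ω _ _ _ _ m _ ρ _ T T' R θ hT hT' hTT hR hθ hm he p q κ hκ hκi hκ1 hκ2
  have := hκ
  have : Nonempty Ω := by
    by_contra hne
    rw [not_nonempty_iff] at hne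
    have h1 : ρ Set.univ = 1 := measure_univ
    rw [Set.univ_eq_empty_iff.2 hne, measure_empty] at h1
    exact zero_ne_one h1
  obtain ⟨K, hK⟩ : ∃ K : Kernel X Ω, K = condDistrib id θ ρ := ⟨_, rfl⟩
  have : IsMarkovKernel K := hK ▸ inferInstance
  -- iterates
  have hiter : ∀ n : ℕ, ∀ᵐ x ∂m, (K x).map R^[n] = K (T^[n] x) := by
    intro n
    have hTTn : ∀ n : ℕ, ∀ᵐ z ∂m, T'^[n] (T^[n] z) = z := by
      intro n
      induction n with
      | zero => exact Eventually.of_forall fun z => rfl
      | succ n ih =>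
        have h1 : ∀ᵐ z ∂m, T' (T (T^[n] z)) = T^[n] z :=
          (hT.iterate n).quasiMeasurePreserving.ae hTT
        filter_upwards [ih, h1] with z hz hz1
        rw [Function.iterate_succ_apply' T n z, Function.iterate_succ_apply T' n, hz1, hz]
    have hen : ∀ n : ℕ, ∀ᵐ w ∂ρ, θ (R^[n] w) = T^[n] (θ w) := by
      intro n
      induction n with
      | zero => exact Eventually.of_forall fun z => rfl
      | succ n ih =>
        have h1 : ∀ᵐ w ∂ρ, θ (R (R^[n] w)) = T (θ (R^[n] w)) :=
          (hR.iterate n).quasiMeasurePreserving.ae he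
        filter_upwards [ih, h1] with w hw hw1
        rw [Function.iterate_succ_apply' R n w, Function.iterate_succ_apply' T n, hw1, hw]
    rw [hK]
    exact ker_eq (hT.iterate n) (hT'.iterate n) (hTTn n) (hR.iterate n) hθ hm (hen n)
  have q1 : Measure.QuasiMeasurePreserving (Prod.fst : X × X → X) κ m := ⟨measurable_fst, hκ1⟩
  have q2 : Measure.QuasiMeasurePreserving (Prod.snd : X × X → X) κ m := ⟨measurable_snd, hκ2⟩
  -- masses
  have hnull : ∀ s : Set Ω, MeasurableSet s → ρ s = 0 → ∀ᵐ x ∂m, K x s = 0 := by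
    intro s hs h0
    have h1 := setLIntegral_preimage_condDistrib (μ := ρ) (Y := id) hθ aemeasurable_id hs
      (t := Set.univ) MeasurableSet.univ
    rw [Set.preimage_univ, Set.univ_inter, Set.preimage_id, h0, Measure.restrict_univ,
      ← hK] at h1
    rw [← lintegral_map (f := fun x => K x s) (Kernel.measurable_coe _ hs) hθ, hm,
      lintegral_eq_zero_iff (Kernel.measurable_coe _ hs)] at h1
    exact h1
  obtain ⟨κ', hκ'⟩ : ∃ κ' : Measure (Ω × Ω), κ' = κ.bind (K ∥ₖ K) := ⟨_, rfl⟩
  have hap : ∀ s : Set (Ω × Ω), MeasurableSet s →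
      κ' s = ∫⁻ z, ((K z.1).prod (K z.2)) s ∂κ := by
    intro s hs
    rw [hκ', Measure.bind_apply hs (Kernel.aemeasurable _)]
    simp only [Kernel.parallelComp_apply]
  have hpr : IsProbabilityMeasure κ' := by
    rw [hκ']
    infer_instance
  refine ⟨κ', hpr, ⟨((hR.iterate p).measurable).prodMap (hR.iterate q).measurable, ?_⟩, ?_, ?_, ?_⟩
  · ext s hs
    have hRm : Measurable (Prod.map R^[p] R^[q]) :=
      ((hR.iterate p).measurable).prodMap (hR.iterate q).measurable
    rw [Measure.map_apply hRm hs, hap _ (hRm hs), hap _ hs]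
    have h1 : ∀ᵐ z ∂κ, ((K z.1).prod (K z.2)) (Prod.map R^[p] R^[q] ⁻¹' s) =
        ((K (Prod.map T^[p] T^[q] z).1).prod (K (Prod.map T^[p] T^[q] z).2)) s := by
      filter_upwards [q1.ae (hiter p), q2.ae (hiter q)] with z hz1 hz2
      rw [← Measure.map_apply hRm hs, ← Measure.map_prod_map _ _ (hR.iterate p).measurable
        (hR.iterate q).measurable, hz1, hz2]
      rfl
    rw [lintegral_congr_ae h1]
    have hm1 : Measurable fun z : X × X => ((K z.1).prod (K z.2)) s := by
      have h2 := Kernel.measurable_coe (K ∥ₖ K) hs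
      simpa only [Kernel.parallelComp_apply] using h2
    exact hκi.lintegral_comp hm1
  · refine Measure.AbsolutelyContinuous.mk fun s hs h0 => ?_
    rw [Measure.map_apply measurable_fst hs, hap _ (measurable_fst hs)]
    rw [lintegral_eq_zero_iff']
    · filter_upwards [q1.ae (hnull s hs h0)] with z hz
      rw [← Set.prod_univ, Measure.prod_prod, hz, zero_mul]
      rfl
    · have h2 := Kernel.measurable_coe (K ∥ₖ K) (measurable_fst (β := Ω) hs)
      simp only [Kernel.parallelComp_apply] at h2
      exact h2.aemeasurable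
  · refine Measure.AbsolutelyContinuous.mk fun s hs h0 => ?_
    rw [Measure.map_apply measurable_snd hs, hap _ (measurable_snd hs)]
    rw [lintegral_eq_zero_iff']
    · filter_upwards [q2.ae (hnull s hs h0)] with z hz
      rw [← Set.univ_prod, Measure.prod_prod, hz, mul_zero]
      rfl
    · have h2 := Kernel.measurable_coe (K ∥ₖ K) (measurable_snd (α := Ω) hs)
      simp only [Kernel.parallelComp_apply] at h2
      exact h2.aemeasurable
  · intro G g hG hg hgG
    obtain ⟨hGm, b, hGb⟩ := hG
    have hGi : Integrable G ρ :=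
      Integrable.of_bound hGm.aestronglyMeasurable b (Eventually.of_forall hGb)
    have h1 := condExp_ae_eq_integral_condDistrib_id (μ := ρ) hθ hGi
    have h2 : ∀ᵐ x ∂m, g x = ∫ w, G w ∂(K x) := by
      rw [← hm]
      rw [ae_map_iff hθ.aemeasurable]
      · filter_upwards [hgG, h1] with w hw hw1
        rw [hw, hw1, hK]
      · refine measurableSet_eq_fun hg.1 ?_
        exact (hGm.stronglyMeasurable.integral_kernel (κ := K)).measurable
    have h3 : Integrable (fun w : Ω × Ω => G w.1 * conj (G w.2)) κ' := by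
      refine Integrable.of_bound ?_ (b * b) (Eventually.of_forall fun w => ?_)
      · exact ((hGm.comp measurable_fst).mul
          (Complex.continuous_conj.measurable.comp (hGm.comp measurable_snd))).aestronglyMeasurable
      · rw [norm_mul, RCLike.norm_conj]
        exact mul_le_mul (hGb _) (hGb _) (norm_nonneg _) ((norm_nonneg _).trans (hGb w.1))
    have e0 : κ' = ((K ∥ₖ K) ∘ₖ Kernel.const Unit κ) () := by
      rw [hκ', Kernel.comp_apply, Kernel.const_apply]
    rw [e0] at h3 ⊢
    rw [Kernel.integral_comp h3, Kernel.const_apply]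
    refine integral_congr_ae ?_
    filter_upwards [q1.ae h2, q2.ae h2] with z hz1 hz2
    rw [Kernel.parallelComp_apply, integral_prod_mul (f := fun w => G w)
      (g := fun w => conj (G w)), integral_conj, hz1, hz2]

end Pool.Agent.Helper73.ZU
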