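import Pool.Agent.Helper40.ZU.Stmts2

/-!
Sheet ZU (MP_7a8f48_an): row XSL, measurable selection in a compact set.
-/

set_option linter.unusedSectionVars false

open MeasureTheory Filter Topology

namespace Pool.Agent.Helper73.ZU

open Pool.Agent.Helper40.ZU (ST_XSL)

/-- XSL: measurable selection in a compact set. -/
theorem st_XSL : ST_XSL := by
  intro Y Z _ _ _ _ _ _ G hG hne
  classical
  obtain ⟨⟨y0, z0⟩, h0⟩ := hne
  have hKc : IsCompact (Prod.snd '' G) := hG.image continuous_snd
  have : CompactSpace (Prod.snd '' G) := isCompact_iff_compactSpace.1 hKc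
  have : Nonempty (Prod.snd '' G) := ⟨⟨z0, (y0, z0), h0, rfl⟩⟩
  obtain ⟨c, hc, hcs⟩ := exists_nat_bool_continuous_surjective_of_compact (Prod.snd '' G)
  obtain ⟨f, hf, hfs⟩ : ∃ f : cantorSet → Z, Continuous f ∧
      ∀ z ∈ Prod.snd '' G, ∃ s, f s = z := by
    refine ⟨fun s => c (cantorSetHomeomorphNatToBool s), ?_, ?_⟩
    · exact continuous_subtype_val.comp (hc.comp cantorSetHomeomorphNatToBool.continuous)
    · intro z hz
      obtain ⟨b, hb⟩ := hcs ⟨z, hz⟩
      refine ⟨cantorSetHomeomorphNatToBool.symm b, ?_⟩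
      simp only [Homeomorph.apply_symm_apply, hb]
  have hcc : CompactSpace cantorSet := isCompact_iff_compactSpace.1 isCompact_cantorSet
  have hD : IsCompact (Prod.fst '' G) := hG.image continuous_fst
  -- the compact set of parameters
  obtain ⟨P, hP⟩ : ∃ P : Set (Y × cantorSet), P = {p | (p.1, f p.2) ∈ G} := ⟨_, rfl⟩
  have hPcl : IsClosed P := by
    rw [hP]
    exact hG.isClosed.preimage (continuous_fst.prodMk (hf.comp continuous_snd))
  have hPc : IsCompact P := by
    refine (hD.prod isCompact_univ).of_isClosed_subset hPcl ?_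
    rintro ⟨y, s⟩ hs
    rw [hP] at hs
    exact ⟨⟨_, hs, rfl⟩, Set.mem_univ _⟩
  -- the values of the parameters
  obtain ⟨V, hV⟩ : ∃ V : Y → Set ℝ, V = fun y => {r : ℝ | ∃ s : cantorSet, (s : ℝ) = r ∧
      (y, f s) ∈ G} := ⟨_, rfl⟩
  have hVmem : ∀ y r, r ∈ V y ↔ ∃ s : cantorSet, (s : ℝ) = r ∧ (y, f s) ∈ G := by
    intro y r
    rw [hV]
    rfl
  have hVc : ∀ y, IsCompact (V y) := by
    intro y
    have e : V y = (fun s : cantorSet => (s : ℝ)) '' {s | (y, f s) ∈ G} := by
      ext r
      rw [hVmem]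
      constructor
      · rintro ⟨s, hs, hs'⟩
        exact ⟨s, hs', hs⟩
      · rintro ⟨s, hs, hs'⟩
        exact ⟨s, hs', hs⟩
    rw [e]
    refine IsCompact.image ?_ continuous_subtype_val
    exact (hG.isClosed.preimage (continuous_const.prodMk hf)).isCompact
  have hVne : ∀ y ∈ Prod.fst '' G, (V y).Nonempty := by
    rintro y ⟨⟨y', z⟩, hyz, rfl⟩
    obtain ⟨s, hs⟩ := hfs z ⟨_, hyz, rfl⟩
    refine ⟨s, (hVmem _ _).2 ⟨s, rfl, ?_⟩⟩
    rw [hs]
    exact hyz
  have hmin : ∀ y ∈ Prod.fst '' G, sInf (V y) ∈ V y := fun y hy =>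
    (hVc y).sInf_mem (hVne y hy)
  obtain ⟨v, hv⟩ : ∃ v : Y → ℝ, v = fun y => if y ∈ Prod.fst '' G then sInf (V y) else 2 :=
    ⟨_, rfl⟩
  have hvm : Measurable v := by
    refine measurable_of_Iic fun a => ?_
    have e1 : {y | y ∈ Prod.fst '' G ∧ sInf (V y) ≤ a} =
        Prod.fst '' (P ∩ {p | (p.2 : ℝ) ≤ a}) := by
      ext y
      constructor
      · rintro ⟨hy, hya⟩
        obtain ⟨s, hs, hs'⟩ := (hVmem _ _).1 (hmin y hy)
        refine ⟨(y, s), ⟨?_, ?_⟩, rfl⟩
        · rw [hP]
          exact hs'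
        · show (s : ℝ) ≤ a
          rw [hs]
          exact hya
      · rintro ⟨⟨y', s⟩, ⟨hs, hs'⟩, rfl⟩
        rw [hP] at hs
        refine ⟨⟨_, hs, rfl⟩, ?_⟩
        exact (csInf_le (hVc _).bddBelow ((hVmem _ _).2 ⟨s, rfl, hs⟩)).trans hs'
    have e2 : MeasurableSet {y | y ∈ Prod.fst '' G ∧ sInf (V y) ≤ a} := by
      rw [e1]
      refine IsClosed.measurableSet (IsCompact.isClosed ?_)
      refine IsCompact.image (hPc.inter_right ?_) continuous_fst
      exact isClosed_le (continuous_subtype_val.comp continuous_snd) continuous_const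
    have e3 : v ⁻¹' Set.Iic a = {y | y ∈ Prod.fst '' G ∧ sInf (V y) ≤ a} ∪
        ((Prod.fst '' G)ᶜ ∩ {_y | (2 : ℝ) ≤ a}) := by
      ext y
      rw [hv]
      by_cases hy : y ∈ Prod.fst '' G
      · simp only [Set.mem_preimage, Set.mem_Iic, if_pos hy]
        constructor
        · intro h
          exact Or.inl ⟨hy, h⟩
        · rintro (h | h)
          · exact h.2
          · exact absurd hy h.1
      · simp only [Set.mem_preimage, Set.mem_Iic, if_neg hy]
        constructor
        · intro h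
          exact Or.inr ⟨hy, h⟩
        · rintro (h | h)
          · exact absurd h.1 hy
          · exact h.2
    rw [e3]
    exact e2.union (hD.isClosed.measurableSet.compl.inter (MeasurableSet.const _))
  -- the inverse of the parametrisation
  obtain ⟨σ, hσ⟩ : ∃ σ : ℝ → Z, σ = fun r => if h : r ∈ cantorSet then f ⟨r, h⟩ else z0 :=
    ⟨_, rfl⟩
  have hσs : ∀ s : cantorSet, σ (s : ℝ) = f s := by
    intro s
    rw [hσ]
    simp only [dif_pos s.2]
  have hσm : Measurable σ := by
    refine measurable_of_isClosed fun F hF => ?_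
    have e : σ ⁻¹' F = (fun s : cantorSet => (s : ℝ)) '' (f ⁻¹' F) ∪
        (cantorSetᶜ ∩ {_r | z0 ∈ F}) := by
      ext r
      by_cases hr : r ∈ cantorSet
      · constructor
        · intro h
          left
          refine ⟨⟨r, hr⟩, ?_, rfl⟩
          have h1 := hσs ⟨r, hr⟩
          show f ⟨r, hr⟩ ∈ F
          rw [← h1]
          exact h
        · rintro (⟨s, hs, rfl⟩ | h)
          · show σ (s : ℝ) ∈ F
            rw [hσs]
            exact hs
          · exact absurd hr h.1
      · have h1 : σ r = z0 := by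
          rw [hσ]
          simp only [dif_neg hr]
        constructor
        · intro h
          right
          refine ⟨hr, ?_⟩
          show z0 ∈ F
          rw [← h1]
          exact h
        · rintro (⟨s, hs, rfl⟩ | h)
          · exact absurd s.2 hr
          · show σ r ∈ F
            rw [h1]
            exact h.2
    rw [e]
    refine MeasurableSet.union ?_ ?_
    · exact ((hF.preimage hf).isCompact.image continuous_subtype_val).isClosed.measurableSet
    · exact isCompact_cantorSet.isClosed.measurableSet.compl.inter (MeasurableSet.const _)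
  refine ⟨fun y => σ (v y), hσm.comp hvm, ?_⟩
  rintro y ⟨z, hz⟩
  have hy : y ∈ Prod.fst '' G := ⟨_, hz, rfl⟩
  obtain ⟨s, hs, hs'⟩ := (hVmem _ _).1 (hmin y hy)
  have e : v y = (s : ℝ) := by
    rw [hv]
    simp only [if_pos hy, hs]
  show (y, σ (v y)) ∈ G
  rw [e, hσs]
  exact hs'

end Pool.Agent.Helper73.ZU
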