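import Pool.Agent.Helper40.ZU.Stmts3
import Pool.Agent.Helper94.ZU.VLM
import Pool.Agent.Helper34.ZU.VAV

/-!
Row SSQ of the sheet ZU (MP_7a8f48_an): sequences which follow the orbits for most times.
-/

open MeasureTheory Filter Topology Finset
open scoped ComplexConjugate

namespace Pool.Agent.Helper73.ZU

open Pool.Agent.Helper40.ZU
open Pool.Agent.Helper16.MD (MS)

/-- the shift -/
def sh {W : Type} (z : ℕ → W) : ℕ → W := fun n => z (n + 1)

theorem sh_iter {W : Type} (n : ℕ) (z : ℕ → W) (i : ℕ) : (sh^[n] z) i = z (i + n) := by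
  induction n generalizing z i with
  | zero => rfl
  | succ n ih =>
    rw [Function.iterate_succ_apply, ih]
    show z (i + n + 1) = _
    rw [add_assoc]

theorem sh_cont {W : Type} [TopologicalSpace W] : Continuous (sh : (ℕ → W) → ℕ → W) :=
  continuous_pi fun n => continuous_apply (n + 1)

/-- the number of jumps up to `N` -/
theorem card_le {W : Type} (R : W → W) (w : ℕ → W) (N : ℕ) (g : W → W → ℝ)
    (h0 : ∀ a, g a (R a) = 0) (h1 : ∀ a b, g a b ≤ 1) :
    ∑ n ∈ Icc 1 N, g (w n) (w (n + 1)) ≤
      (Nat.card {n : ℕ // n < N ∧ w (n + 1) ≠ R (w n)} : ℝ) + 1 := by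
  classical
  have e1 : Nat.card {n : ℕ // n < N ∧ w (n + 1) ≠ R (w n)} =
      ((range N).filter fun n => w (n + 1) ≠ R (w n)).card :=
    Nat.subtype_card _ fun n => by rw [mem_filter, mem_range]
  rw [e1]
  have e2 : ∀ n, g (w n) (w (n + 1)) ≤ if w (n + 1) ≠ R (w n) then 1 else 0 := by
    intro n
    by_cases h : w (n + 1) = R (w n)
    · rw [h, h0]
      split_ifs <;> norm_num
    · rw [if_pos h]
      exact h1 _ _
  calc ∑ n ∈ Icc 1 N, g (w n) (w (n + 1))
      ≤ ∑ n ∈ Icc 1 N, (if w (n + 1) ≠ R (w n) then (1 : ℝ) else 0) :=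
        sum_le_sum fun n _ => e2 n
    _ ≤ ∑ n ∈ insert N (range N), (if w (n + 1) ≠ R (w n) then (1 : ℝ) else 0) := by
        refine sum_le_sum_of_subset_of_nonneg (fun n hn => ?_) fun n _ _ => ?_
        · rw [mem_insert, mem_range]
          rw [mem_Icc] at hn
          omega
        · split_ifs <;> norm_num
    _ ≤ 1 + ∑ n ∈ range N, (if w (n + 1) ≠ R (w n) then (1 : ℝ) else 0) := by
        rw [sum_insert (by simp)]
        gcongr
        split_ifs <;> norm_num
    _ = _ := by
        rw [Finset.sum_boole, add_comm]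

/-- row SSQ -/
theorem st_SSQ (hVLM : ST_VLM) (hMIS : ST_MIS) : ST_SSQ := by
  intro W _ _ _ _ R w F hR hGa hw
  let _ : MetricSpace (ℕ → W) := TopologicalSpace.metrizableSpaceMetric (ℕ → W)
  obtain ⟨B, hB⟩ := isCompact_univ.exists_bound_of_continuousOn F.continuous.continuousOn
  have hF0 : Continuous fun z : ℕ → W => F (z 0) := F.continuous.comp (continuous_apply 0)
  have key := hVLM (ℕ → W) sh w (fun z => F (z 0)) sh_cont.measurable hF0.measurable
    ⟨B, fun z => hB _ (Set.mem_univ _)⟩ ?_
  · refine key.congr fun N => ?_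
    congr 2
    ext n
    rw [sh_iter, zero_add]
  intro j m hj hm h
  have hlt : Lt (map j atTop) sh w m := Pool.Agent.Helper94.ZU.lt_map hj hm sh_cont.measurable
    (Eventually.of_forall fun z => sh_cont.continuousAt) h
  have hmp : MeasurePreserving sh m m :=
    (Pool.Agent.Helper34.ZU.st_VAV (ℕ → W) (map j atTop) sh w m hlt).1
  -- the points which do not jump
  have hgc : Continuous fun z : ℕ → W => min 1 (dist (z 1) (R (z 0))) :=
    continuous_const.min ((continuous_apply 1).dist (hR.comp (continuous_apply 0)))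
  have hg0 : ∀ z : ℕ → W, 0 ≤ min 1 (dist (z 1) (R (z 0))) := fun z =>
    le_min zero_le_one dist_nonneg
  have hint : ∫ z, min 1 (dist (z 1) (R (z 0))) ∂m = 0 := by
    have h1 := h ⟨fun z => min 1 (dist (z 1) (R (z 0))), hgc⟩
    refine tendsto_nhds_unique h1 ?_
    have h2 : Tendsto (fun N : ℕ => ((Nat.card {n : ℕ // n < N ∧ w (n + 1) ≠ R (w n)} : ℝ) +
        1) / (N : ℝ)) atTop (𝓝 0) := by
      have h3 := hw.add tendsto_one_div_atTop_nhds_zero_nat
      rw [add_zero] at h3
      refine h3.congr fun N => ?_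
      rw [add_div]
    refine squeeze_zero (fun k => ?_) (fun k => ?_) (h2.comp hj.tendsto_atTop)
    · exact div_nonneg (sum_nonneg fun n _ => hg0 _) (by positivity)
    · show _ / _ ≤ _ / _
      refine div_le_div_of_nonneg_right ?_ (by positivity)
      refine le_trans (le_of_eq ?_) (card_le R w (j k) (fun a b => min 1 (dist b (R a)))
        (fun a => by rw [dist_self]; exact min_eq_right zero_le_one) fun a b => min_le_left _ _)
      refine sum_congr rfl fun n _ => ?_
      show min 1 (dist ((sh^[n] w) 1) (R ((sh^[n] w) 0))) = _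
      rw [sh_iter, sh_iter, zero_add, add_comm 1 n]
  have hint2 : Integrable (fun z : ℕ → W => min 1 (dist (z 1) (R (z 0)))) m :=
    Integrable.of_bound hgc.measurable.aestronglyMeasurable 1
      (Eventually.of_forall fun z => by
        rw [Real.norm_of_nonneg (hg0 z)]
        exact min_le_left _ _)
  have hj0 : ∀ᵐ z ∂m, z 1 = R (z 0) := by
    have h1 := (integral_eq_zero_iff_of_nonneg hg0 hint2).1 hint
    filter_upwards [h1] with z hz
    have hz' : min 1 (dist (z 1) (R (z 0))) = 0 := hz
    rcases min_choice 1 (dist (z 1) (R (z 0))) with h2 | h2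
    · rw [hz'] at h2
      norm_num at h2
    · rw [hz'] at h2
      exact dist_eq_zero.1 h2.symm
  have hjn : ∀ᵐ z ∂m, ∀ n : ℕ, z (n + 1) = R (z n) := by
    rw [ae_all_iff]
    intro n
    have h1 := (hmp.iterate n).quasiMeasurePreserving.ae hj0
    filter_upwards [h1] with z hz
    rw [sh_iter, sh_iter, zero_add, add_comm 1 n] at hz
    exact hz
  refine ⟨Eventually.of_forall fun z => sh_cont.continuousAt,
    Eventually.of_forall fun z => hF0.continuousAt, ?_⟩
  have hev : Measurable fun z : ℕ → W => z 0 := measurable_pi_apply 0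
  have hπR : ∀ᵐ z ∂m, (fun z : ℕ → W => z 0) (sh z) = R ((fun z : ℕ → W => z 0) z) := hj0
  refine hMIS W (ℕ → W) m R sh (fun z => z 0) (fun a n => R^[n] a) hR.measurable hev
    (measurable_pi_lambda _ fun n => hR.measurable.iterate n) hmp ?_ hπR ?_
  · filter_upwards [hjn] with z hz
    ext n
    induction n with
    | zero => rfl
    | succ n ih =>
      show R^[n + 1] (z 0) = _
      rw [Function.iterate_succ_apply', hz n]
      exact congrArg R ih
  · refine hGa _ (Measure.isProbabilityMeasure_map hev.aemeasurable) ⟨hR.measurable, ?_⟩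
    rw [Measure.map_map hR.measurable hev]
    have h1 : (R ∘ fun z : ℕ → W => z 0) =ᵐ[m] ((fun z : ℕ → W => z 0) ∘ sh) := by
      filter_upwards [hj0] with z hz
      exact hz.symm
    rw [Measure.map_congr h1, ← Measure.map_map hev hmp.measurable, hmp.map_eq]

end Pool.Agent.Helper73.ZU
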