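import Pool.Agent.Helper40.ZU.Stmts

/-!
Sheet ZU (MP_7a8f48_an): row VSU, subsequences and compactness.
-/

set_option linter.unusedSectionVars false

open MeasureTheory Filter Topology Finset
open scoped ComplexConjugate ENNReal BoundedContinuousFunction

namespace Pool.Agent.Helper73.ZU

open Pool.Agent.Helper16.MD (MS)
open Pool.Agent.Helper40.ZU (ST_VSU)

section

variable {X : Type} [MetricSpace X] [CompactSpace X] [MeasurableSpace X] [BorelSpace X]

/-- the empirical measures -/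
noncomputable def emp (T : X → X) (x : X) (N : ℕ) : Measure X :=
  (N : ℝ≥0∞)⁻¹ • ∑ n ∈ Icc 1 N, Measure.dirac (T^[n] x)

theorem emp_prob (T : X → X) (x : X) {N : ℕ} (hN : 1 ≤ N) : IsProbabilityMeasure (emp T x N) := by
  refine ⟨?_⟩
  unfold emp
  rw [Measure.smul_apply, Measure.finsetSum_apply]
  simp only [measure_univ, sum_const, Nat.card_Icc, Nat.add_sub_cancel, smul_eq_mul, nsmul_eq_mul,
    mul_one]
  exact ENNReal.inv_mul_cancel (by exact_mod_cast (by omega : N ≠ 0)) (ENNReal.natCast_ne_top N)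

theorem emp_int (T : X → X) (x : X) (N : ℕ) (G : C(X, ℝ)) :
    ∫ z, G z ∂(emp T x N) = (∑ n ∈ Icc 1 N, G (T^[n] x)) / (N : ℝ) := by
  unfold emp
  rw [integral_smul_measure, integral_finsetSum_measure]
  · simp only [integral_dirac, ENNReal.toReal_inv, ENNReal.toReal_natCast, smul_eq_mul]
    rw [div_eq_inv_mul]
  · intro i _
    exact integrable_dirac (by simp)

end

/-- VSU: subsequences and compactness. -/
theorem st_VSU : ST_VSU := by
  intro X _ _ _ _ T x a _ h
  by_contra hcon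
  rw [Metric.tendsto_atTop] at hcon
  push Not at hcon
  obtain ⟨ε, hε, hcon⟩ := hcon
  have hfr : ∃ᶠ N : ℕ in atTop, ε ≤ dist (MS a N / (N : ℂ)) 0 ∧ 1 ≤ N := by
    rw [frequently_atTop]
    intro N
    obtain ⟨n, hn, hn'⟩ := hcon (max N 1)
    exact ⟨n, (le_max_left _ _).trans hn, hn', (le_max_right _ _).trans hn⟩
  obtain ⟨φ, hφ, hφ'⟩ := extraction_of_frequently_atTop hfr
  obtain ⟨ν, hν⟩ : ∃ ν : ℕ → ProbabilityMeasure X,
      ∀ k, (ν k : Measure X) = emp T x (φ k) :=
    ⟨fun k => ⟨emp T x (φ k), emp_prob T x (hφ' k).2⟩, fun k => rfl⟩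
  obtain ⟨m, ψ, hψ, hlim⟩ := CompactSpace.tendsto_subseq ν
  rw [ProbabilityMeasure.tendsto_iff_forall_integral_tendsto] at hlim
  have h1 := h (φ ∘ ψ) (m : Measure X) (hφ.comp hψ) inferInstance (by
    intro G
    have h2 := hlim (BoundedContinuousFunction.mkOfCompact G)
    refine h2.congr fun k => ?_
    show ∫ z, (BoundedContinuousFunction.mkOfCompact G) z ∂(ν (ψ k) : Measure X) = _
    rw [hν, ← emp_int]
    rfl)
  have h3 : ∀ k, ε ≤ dist (MS a ((φ ∘ ψ) k) / (((φ ∘ ψ) k : ℕ) : ℂ)) 0 := fun k =>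
    (hφ' (ψ k)).1
  have h4 := (tendsto_iff_dist_tendsto_zero.1 h1)
  exact absurd (ge_of_tendsto' h4 h3) (not_le.2 hε)

end Pool.Agent.Helper73.ZU
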